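import Pool.Agent.Helper11.BR.Defs

/-!
# Project BR: degrees 0 and 1 (no quasimorphisms, no homomorphisms)
-/

set_option autoImplicit false

namespace Pool.Agent.Helper14.BR

open Pool.Agent.Helper11.BR

variable {G : Type} [Group G] [TopologicalSpace G]

/-- Injectivity in degree `0`: `h` is a function on a one point space, take `h' = h`. -/
theorem inj_zero (b : (Fin 1 → G) → ℝ) (h : (Fin 0 → G) → ℝ)
    (hc : Continuous h) (hi : ∀ (g : G) (x : Fin 0 → G), h (fun j => g * x j) = h x)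
    (hd : ∀ x, b x = ∑ i : Fin 1, (-1 : ℝ) ^ (i : ℕ) * h (fun j => x (Fin.succAbove i j))) :
    ∃ h' : (Fin 0 → G) → ℝ, (Continuous h' ∧
      ∀ (g : G) (x : Fin 0 → G), h' (fun j => g * x j) = h' x) ∧ (∃ C : ℝ, ∀ x, |h' x| ≤ C) ∧
      ∀ x, b x = ∑ i : Fin 1, (-1 : ℝ) ^ (i : ℕ) * h' (fun j => x (Fin.succAbove i j)) := by
  refine ⟨h, ⟨hc, hi⟩, ⟨|h default|, fun x => ?_⟩, hd⟩
  rw [Subsingleton.elim x default]

/-- Injectivity in degree `1`: `h x = h 1` is constant, so `b = 0`, take `h' = 0`. -/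
theorem inj_one (b : (Fin 2 → G) → ℝ) (h : (Fin 1 → G) → ℝ)
    (hc : Continuous h) (hi : ∀ (g : G) (x : Fin 1 → G), h (fun j => g * x j) = h x)
    (hd : ∀ x, b x = ∑ i : Fin 2, (-1 : ℝ) ^ (i : ℕ) * h (fun j => x (Fin.succAbove i j))) :
    ∃ h' : (Fin 1 → G) → ℝ, (Continuous h' ∧
      ∀ (g : G) (x : Fin 1 → G), h' (fun j => g * x j) = h' x) ∧ (∃ C : ℝ, ∀ x, |h' x| ≤ C) ∧
      ∀ x, b x = ∑ i : Fin 2, (-1 : ℝ) ^ (i : ℕ) * h' (fun j => x (Fin.succAbove i j)) := by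
  have hconst : ∀ y : Fin 1 → G, h y = h (fun _ => 1) := by
    intro y
    have h1 := hi (y 0) (fun _ => 1)
    have h2 : (fun _ : Fin 1 => y 0 * 1) = y := by
      funext j
      rw [Subsingleton.elim j 0, mul_one]
    rw [h2] at h1
    exact h1
  have hb : ∀ x, b x = 0 := by
    intro x
    rw [hd, Fin.sum_univ_two, hconst (fun j => x (Fin.succAbove 0 j)),
      hconst (fun j => x (Fin.succAbove 1 j))]
    simp
  refine ⟨fun _ => 0, ⟨continuous_const, fun _ _ => rfl⟩, ⟨0, fun x => by simp⟩, fun x => ?_⟩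
  rw [hb]
  simp

/-- Surjectivity in degree `0`: `b x = b 1` is constant, hence bounded: take `b' = b`, `h = 0`. -/
theorem sur_zero (b : (Fin 1 → G) → ℝ) (hc : Continuous b)
    (hi : ∀ (g : G) (x : Fin 1 → G), b (fun j => g * x j) = b x) :
    ∃ (b' : (Fin 1 → G) → ℝ) (h : (Fin 0 → G) → ℝ), (Continuous b' ∧
      ∀ (g : G) (x : Fin 1 → G), b' (fun j => g * x j) = b' x) ∧ (∃ C : ℝ, ∀ x, |b' x| ≤ C) ∧
      (Continuous h ∧ ∀ (g : G) (x : Fin 0 → G), h (fun j => g * x j) = h x) ∧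
      ∀ x, b x = b' x + ∑ i : Fin 1, (-1 : ℝ) ^ (i : ℕ) * h (fun j => x (Fin.succAbove i j)) := by
  have hconst : ∀ y : Fin 1 → G, b y = b (fun _ => 1) := by
    intro y
    have h1 := hi (y 0) (fun _ => 1)
    have h2 : (fun _ : Fin 1 => y 0 * 1) = y := by
      funext j
      rw [Subsingleton.elim j 0, mul_one]
    rw [h2] at h1
    exact h1
  refine ⟨b, fun _ => 0, ⟨hc, hi⟩, ⟨|b (fun _ => 1)|, fun x => ?_⟩,
    ⟨continuous_const, fun _ _ => rfl⟩, fun x => ?_⟩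
  · rw [hconst x]
  · simp

/-- A continuous homomorphism `φ : G → ℝ` of a group of rank one is zero.
Proof.  (1) `rho k = 0` implies `rho (k ^ n) = 0` for all `n` (`rho_mul`, `rho_one`, and
`0 ≤ rho g` because `rho 1 ≤ rho g + rho g⁻¹ = 2 rho g`).  `φ` is bounded by some `M` on the compact
set `{g | rho g ≤ 0}` (`Γ.proper 0`), so `n * |φ k| = |φ (k ^ n)| ≤ M` for all `n`, so `φ k = 0`.
(2) `φ flip + φ (dg t) = φ (dg (-t)) + φ flip` by `flip_dg`, and `φ (dg (-t)) = -φ (dg t)` because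
`dg (-t) * dg t = dg 0 = 1` (`dg_add 0 0` gives `dg 0 = 1`): so `φ (dg t) = 0`.
(3) `polar g` gives `k` with `rho k = 0` and `k' := g⁻¹ * (k * dg (rho g))` with `rho k' = 0`:
`0 = φ k' = - φ g + φ k + φ (dg (rho g)) = - φ g`. -/
theorem hom_zero (Γ : R1 G) (φ : G → ℝ) (hc : Continuous φ)
    (hm : ∀ g h : G, φ (g * h) = φ g + φ h) (g : G) : φ g = 0 := by
  have hone : φ 1 = 0 := by
    have h1 := hm 1 1
    rw [mul_one] at h1
    linarith
  have hinv : ∀ x : G, φ x⁻¹ = -φ x := by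
    intro x
    have h1 := hm x⁻¹ x
    rw [inv_mul_cancel, hone] at h1
    linarith
  have hpow : ∀ (x : G) (n : ℕ), φ (x ^ n) = n * φ x := by
    intro x n
    induction n with
    | zero => rw [pow_zero, hone, Nat.cast_zero, zero_mul]
    | succ n ih =>
      rw [pow_succ, hm, ih]
      push_cast
      ring
  have hnn : ∀ x : G, 0 ≤ Γ.rho x := by
    intro x
    have h1 := Γ.rho_mul x x⁻¹
    rw [mul_inv_cancel, Γ.rho_one, Γ.rho_inv] at h1
    linarith
  have hk : ∀ k : G, Γ.rho k = 0 → φ k = 0 := by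
    intro k hk
    have hkn : ∀ n : ℕ, Γ.rho (k ^ n) ≤ 0 := by
      intro n
      induction n with
      | zero => rw [pow_zero, Γ.rho_one]
      | succ n ih =>
        rw [pow_succ]
        have := Γ.rho_mul (k ^ n) k
        linarith
    obtain ⟨M, hM⟩ := (Γ.proper 0).exists_bound_of_continuousOn (f := φ) hc.continuousOn
    by_contra hne
    have hpos : 0 < |φ k| := abs_pos.2 hne
    obtain ⟨n, hn⟩ := exists_nat_gt (M / |φ k|)
    have h1 := hM (k ^ n) (hkn n)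
    rw [hpow, Real.norm_eq_abs, abs_mul, Nat.abs_cast] at h1
    rw [div_lt_iff₀ hpos] at hn
    linarith
  have hdg : ∀ t : ℝ, φ (Γ.dg t) = 0 := by
    intro t
    have hdg0 : Γ.dg 0 = 1 := by
      have h1 := Γ.dg_add 0 0
      rw [add_zero] at h1
      exact left_eq_mul.1 h1
    have h1 : φ (Γ.flip * Γ.dg t) = φ (Γ.dg (-t) * Γ.flip) := by rw [Γ.flip_dg]
    have h2 : φ (Γ.dg (-t)) = -φ (Γ.dg t) := by
      have h3 := Γ.dg_add (-t) t
      rw [neg_add_cancel, hdg0] at h3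
      have h4 := hm (Γ.dg (-t)) (Γ.dg t)
      rw [← h3, hone] at h4
      linarith
    rw [hm, hm, h2] at h1
    linarith
  obtain ⟨k, hk0, hk1⟩ := Γ.polar g
  have h1 := hk _ hk1
  rw [hm, hm, hinv, hk k hk0, hdg] at h1
  linarith

/-- Surjectivity in degree `1`: `b = 0` (so `b' = b`, `h = 0`).  Proof: put `φ g = b ![1, g]`; the
cocycle identity at `![1, g, g * h]` and invariance give `φ (g * h) = φ g + φ h`; `hom_zero`; and
`b x = φ ((x 0)⁻¹ * x 1)` by invariance. -/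
theorem sur_one (Γ : R1 G) (b : (Fin 2 → G) → ℝ) (hc : Continuous b)
    (hi : ∀ (g : G) (x : Fin 2 → G), b (fun j => g * x j) = b x)
    (hd : ∀ x : Fin 3 → G,
      ∑ i : Fin 3, (-1 : ℝ) ^ (i : ℕ) * b (fun j => x (Fin.succAbove i j)) = 0) :
    ∃ (b' : (Fin 2 → G) → ℝ) (h : (Fin 1 → G) → ℝ), (Continuous b' ∧
      ∀ (g : G) (x : Fin 2 → G), b' (fun j => g * x j) = b' x) ∧ (∃ C : ℝ, ∀ x, |b' x| ≤ C) ∧
      (Continuous h ∧ ∀ (g : G) (x : Fin 1 → G), h (fun j => g * x j) = h x) ∧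
      ∀ x, b x = b' x + ∑ i : Fin 2, (-1 : ℝ) ^ (i : ℕ) * h (fun j => x (Fin.succAbove i j)) := by
  obtain ⟨φ, hφ⟩ : ∃ φ : G → ℝ, ∀ g, φ g = b ![1, g] := ⟨fun g => b ![1, g], fun _ => rfl⟩
  have hb2 : ∀ x : Fin 2 → G, b x = φ ((x 0)⁻¹ * x 1) := by
    intro x
    rw [hφ, ← hi (x 0) ![1, (x 0)⁻¹ * x 1]]
    congr 1
    funext j
    fin_cases j
    · simp
    · simp
  have hφc : Continuous φ := by
    have h1 : φ = fun g => b ![1, g] := funext hφ
    rw [h1]
    refine hc.comp (continuous_pi fun j => ?_)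
    fin_cases j
    · exact continuous_const
    · exact continuous_id
  have hm : ∀ g h : G, φ (g * h) = φ g + φ h := by
    intro g h
    have h1 := hd ![1, g, g * h]
    rw [Fin.sum_univ_three] at h1
    have e0 : (fun j : Fin 2 => (![1, g, g * h] : Fin 3 → G) (Fin.succAbove 0 j)) =
        ![g, g * h] := by
      funext j; fin_cases j <;> rfl
    have e1 : (fun j : Fin 2 => (![1, g, g * h] : Fin 3 → G) (Fin.succAbove 1 j)) =
        ![1, g * h] := by
      funext j; fin_cases j <;> rfl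
    have e2 : (fun j : Fin 2 => (![1, g, g * h] : Fin 3 → G) (Fin.succAbove 2 j)) =
        ![1, g] := by
      funext j; fin_cases j <;> rfl
    rw [e0, e1, e2, hb2, hb2 ![1, g * h], hb2 ![1, g]] at h1
    simp at h1
    linarith
  have h0 : ∀ x, b x = 0 := by
    intro x
    rw [hb2]
    exact hom_zero Γ φ hφc hm _
  refine ⟨b, fun _ => 0, ⟨hc, hi⟩, ⟨0, fun x => by rw [h0, abs_zero]⟩,
    ⟨continuous_const, fun _ _ => rfl⟩, fun x => ?_⟩
  simp

end Pool.Agent.Helper14.BR
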