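import Pool.Agent.Helper11.BR.Defs

/-!
# Project BR: injectivity in degree 2
-/

set_option autoImplicit false

namespace Pool.Agent.Helper14.BR

open Pool.Agent.Helper11.BR

variable {G : Type} [Group G] [TopologicalSpace G]

/-- Continuous quasimorphisms of a group of rank one are bounded.
Proof.  (1) `|φ k| ≤ M` for `rho k ≤ 0` (compactness, `Γ.proper 0`).  `|φ 1| ≤ C` (take `g = h = 1`).
(2) `dg (-t) = flip * dg t * flip⁻¹` by `flip_dg`, so
`|φ (dg (-t)) - φ (dg t)| ≤ 2 * C + 2 * M` (`rho flip = 0`, `rho flip⁻¹ = 0`); and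
`|φ (dg t) + φ (dg (-t))| ≤ C + |φ 1|` because `dg t * dg (-t) = dg 0 = 1` (`dg_add 0 0` gives
`dg 0 = 1`).  So `|φ (dg t)| ≤ 2 * C + M`.
(3) `polar g` gives `k` with `rho k = 0` and `k' := g⁻¹ * (k * dg (rho g))` with `rho k' = 0`;
`g = k * dg (rho g) * k'⁻¹`, so `|φ g| ≤ 2 * C + M + (2 * C + M) + M`. -/
theorem quasi_bdd (Γ : R1 G) (φ : G → ℝ) (hc : Continuous φ) (C : ℝ)
    (hm : ∀ g h : G, |φ (g * h) - φ g - φ h| ≤ C) : ∃ M : ℝ, ∀ g, |φ g| ≤ M := by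
  obtain ⟨M, hM⟩ := (Γ.proper 0).exists_bound_of_continuousOn hc.continuousOn
  have hM' : ∀ k : G, Γ.rho k = 0 → |φ k| ≤ M := fun k hk => by
    have := hM k (show Γ.rho k ≤ 0 from hk.le)
    rwa [Real.norm_eq_abs] at this
  have h0 : Γ.dg 0 = 1 := by
    have h := Γ.dg_add 0 0
    rw [add_zero] at h
    exact (left_eq_mul.mp h)
  have h1 : |φ 1| ≤ C := by
    have h := hm 1 1
    rw [mul_one, sub_self, zero_sub, abs_neg] at h
    exact h
  have hdg : ∀ t : ℝ, |φ (Γ.dg t)| ≤ 2 * C := fun t => by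
    have e1 := abs_le.mp (hm Γ.flip (Γ.dg t))
    have e2 := abs_le.mp (hm (Γ.dg (-t)) Γ.flip)
    have e3 := abs_le.mp (hm (Γ.dg t) (Γ.dg (-t)))
    rw [Γ.flip_dg t] at e1
    rw [← Γ.dg_add, add_neg_cancel, h0] at e3
    have e4 := abs_le.mp h1
    rw [abs_le]
    constructor <;> linarith [e1.1, e1.2, e2.1, e2.2, e3.1, e3.2, e4.1, e4.2]
  refine ⟨4 * C + 2 * M, fun g => ?_⟩
  obtain ⟨k, hk, hk'⟩ := Γ.polar g
  have e1 := abs_le.mp (hm g (g⁻¹ * (k * Γ.dg (Γ.rho g))))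
  have e2 := abs_le.mp (hm k (Γ.dg (Γ.rho g)))
  rw [mul_inv_cancel_left] at e1
  have e3 := abs_le.mp (hM' k hk)
  have e4 := abs_le.mp (hM' _ hk')
  have e5 := abs_le.mp (hdg (Γ.rho g))
  rw [abs_le]
  constructor <;>
    linarith [e1.1, e1.2, e2.1, e2.2, e3.1, e3.2, e4.1, e4.2, e5.1, e5.2]

/-- Injectivity in degree `2`: `h` itself is bounded.  Proof: put `φ g = h ![1, g]`; the value of
`b` at `![1, g, g * g']` is `φ g' - φ (g * g') + φ g` by invariance; `quasi_bdd`; and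
`h x = φ ((x 0)⁻¹ * x 1)` by invariance. -/
theorem inj_two (Γ : R1 G) (b : (Fin 3 → G) → ℝ) (h : (Fin 2 → G) → ℝ)
    (hb : ∃ C : ℝ, ∀ x, |b x| ≤ C) (hc : Continuous h)
    (hi : ∀ (g : G) (x : Fin 2 → G), h (fun j => g * x j) = h x)
    (hd : ∀ x, b x = ∑ i : Fin 3, (-1 : ℝ) ^ (i : ℕ) * h (fun j => x (Fin.succAbove i j))) :
    ∃ h' : (Fin 2 → G) → ℝ, (Continuous h' ∧
      ∀ (g : G) (x : Fin 2 → G), h' (fun j => g * x j) = h' x) ∧ (∃ C : ℝ, ∀ x, |h' x| ≤ C) ∧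
      ∀ x, b x = ∑ i : Fin 3, (-1 : ℝ) ^ (i : ℕ) * h' (fun j => x (Fin.succAbove i j)) := by
  obtain ⟨C, hC⟩ := hb
  refine ⟨h, ⟨hc, hi⟩, ?_, hd⟩
  have hφc : Continuous (fun g : G => h ![1, g]) := by
    refine hc.comp (continuous_pi fun j => ?_)
    fin_cases j
    · exact continuous_const
    · exact continuous_id
  have hx : ∀ x : Fin 2 → G, h x = h ![1, (x 0)⁻¹ * x 1] := fun x => by
    rw [← hi (x 0)⁻¹ x]
    congr 1
    funext j
    fin_cases j <;> simp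
  have hm : ∀ g g' : G, |h ![1, g * g'] - h ![1, g] - h ![1, g']| ≤ C := fun g g' => by
    have e := hC ![1, g, g * g']
    rw [hd, Fin.sum_univ_three] at e
    have a0 : (fun j : Fin 2 => (![1, g, g * g'] : Fin 3 → G) (Fin.succAbove 0 j)) =
        ![g, g * g'] := by
      funext j
      fin_cases j <;> rfl
    have a1 : (fun j : Fin 2 => (![1, g, g * g'] : Fin 3 → G) (Fin.succAbove 1 j)) =
        ![1, g * g'] := by
      funext j
      fin_cases j <;> rfl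
    have a2 : (fun j : Fin 2 => (![1, g, g * g'] : Fin 3 → G) (Fin.succAbove 2 j)) =
        ![1, g] := by
      funext j
      fin_cases j <;> rfl
    rw [a0, a1, a2, hx ![g, g * g']] at e
    have e' : (![g, g * g'] : Fin 2 → G) 0 = g := rfl
    have e'' : (![g, g * g'] : Fin 2 → G) 1 = g * g' := rfl
    rw [e', e'', inv_mul_cancel_left] at e
    have h3 : (-1 : ℝ) ^ ((0 : Fin 3) : ℕ) * h ![1, g'] + (-1 : ℝ) ^ ((1 : Fin 3) : ℕ) *
        h ![1, g * g'] + (-1 : ℝ) ^ ((2 : Fin 3) : ℕ) * h ![1, g] =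
        -(h ![1, g * g'] - h ![1, g] - h ![1, g']) := by
      norm_num
      ring
    rw [h3, abs_neg] at e
    exact e
  obtain ⟨M, hM⟩ := quasi_bdd Γ (fun g => h ![1, g]) hφc C hm
  exact ⟨M, fun x => by rw [hx x]; exact hM _⟩

end Pool.Agent.Helper14.BR
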