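import Pool.Agent.Helper14.BR.PtR
import Pool.Agent.Helper14.SJ.StC
import Pool.Agent.Helper53.BR.Prj

/-!
# Project BR: the radial maps of a group of rank one, for the straightening
-/

set_option autoImplicit false

open Real Topology

namespace Pool.Agent.Helper14.BR

open Pool.Agent.Helper11.BR
open Pool.Agent.Helper14

variable {G : Type} [Group G] [TopologicalSpace G] (Γ : R1 G)

theorem centreS : Centre Γ := Pool.Agent.Helper53.BR.centre Γ

/-- The radial maps. -/
noncomputable def radS : SJ.Rad G (Sp Γ) where
  Ps := Ps Γ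
  C := fun R => 2 * Real.exp (2 * |R|)
  T := (thin Γ (centreS Γ)).choose
  C_nonneg := fun R => by positivity
  T_nonneg := (thin Γ (centreS Γ)).choose_spec.1
  smul := Ps_smul Γ
  low := fun _ _ _ h => Ps_low Γ h
  high := fun _ _ _ h => Ps_high Γ h
  step := Ps_step Γ
  lip := Ps_lip Γ
  contr := Ps_contr Γ
  cont := Ps_cont Γ
  rev := Ps_rev Γ
  thin := (thin Γ (centreS Γ)).choose_spec.2

end Pool.Agent.Helper14.BR
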