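import Pool.Agent.Helper11.BR.Defs
import Pool.Agent.Helper17.BR.Haar

/-!
# Project BR: the metric space of a group of rank one

`Sp Γ` is the quotient of the group by the relation `d x y = 0`.
-/

set_option autoImplicit false

open Real Topology

namespace Pool.Agent.Helper14.BR

open Pool.Agent.Helper11.BR
open Pool.Agent.Helper17.BR (ActFacts)

variable {G : Type} [Group G] [TopologicalSpace G] (Γ : R1 G)

theorem rho_nonneg (g : G) : 0 ≤ Γ.rho g := by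
  have h1 := Γ.rho_mul g g⁻¹
  rw [mul_inv_cancel, Γ.rho_one, Γ.rho_inv] at h1
  linarith

theorem rho_mul_zero {g h : G} (hg : Γ.rho g = 0) (hh : Γ.rho h = 0) : Γ.rho (g * h) = 0 := by
  have h1 := Γ.rho_mul g h
  have h2 := rho_nonneg Γ (g * h)
  linarith

theorem rho_inv_zero {g : G} (hg : Γ.rho g = 0) : Γ.rho g⁻¹ = 0 := by
  rw [Γ.rho_inv, hg]

theorem dg_zero : Γ.dg 0 = 1 := by
  have h := Γ.dg_add 0 0
  rw [add_zero] at h
  exact left_eq_mul.1 h

theorem dg_neg (t : ℝ) : Γ.dg (-t) = (Γ.dg t)⁻¹ := by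
  apply eq_inv_of_mul_eq_one_left
  rw [← Γ.dg_add, neg_add_cancel, dg_zero]

theorem d_self (x : G) : Γ.d x x = 0 := by
  unfold R1.d
  rw [inv_mul_cancel, Γ.rho_one]

theorem d_comm (x y : G) : Γ.d x y = Γ.d y x := by
  unfold R1.d
  rw [← Γ.rho_inv, mul_inv_rev, inv_inv]

theorem d_triangle (x y z : G) : Γ.d x z ≤ Γ.d x y + Γ.d y z := by
  unfold R1.d
  have h1 := Γ.rho_mul (x⁻¹ * y) (y⁻¹ * z)
  rwa [show x⁻¹ * y * (y⁻¹ * z) = x⁻¹ * z by group] at h1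

theorem d_nonneg (x y : G) : 0 ≤ Γ.d x y := rho_nonneg Γ _

theorem d_mul (g x y : G) : Γ.d (g * x) (g * y) = Γ.d x y := by
  unfold R1.d
  rw [show (g * x)⁻¹ * (g * y) = x⁻¹ * y by group]

theorem d_right {k : G} (hk : Γ.rho k = 0) (x : G) : Γ.d x (x * k) = 0 := by
  unfold R1.d
  rw [show x⁻¹ * (x * k) = k by group, hk]

/-- The elements of the group with the pseudo-distance `d`. -/
def Pt (_ : R1 G) : Type := G

noncomputable instance : PseudoMetricSpace (Pt Γ) where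
  dist x y := Γ.d x y
  dist_self x := d_self Γ x
  dist_comm x y := d_comm Γ x y
  dist_triangle x y z := d_triangle Γ x y z

instance : MulAction G (Pt Γ) := inferInstanceAs (MulAction G G)

instance : IsIsometricSMul G (Pt Γ) where
  isometry_smul g := by
    refine Isometry.of_dist_eq fun x y => ?_
    exact d_mul Γ g x y

/-- The metric space. -/
abbrev Sp : Type := SeparationQuotient (Pt Γ)

/-- The point of an element. -/
noncomputable def pt (g : G) : Sp Γ := SeparationQuotient.mk (show Pt Γ from g)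

theorem dist_pt (x y : G) : dist (pt Γ x) (pt Γ y) = Γ.d x y := rfl

theorem smul_pt (g x : G) : g • pt Γ x = pt Γ (g * x) := rfl

theorem pt_surj (z : Sp Γ) : ∃ g, pt Γ g = z := SeparationQuotient.surjective_mk z

theorem pt_eq {x y : G} : pt Γ x = pt Γ y ↔ Γ.d x y = 0 := by
  rw [← dist_pt]
  exact dist_eq_zero.symm

theorem pt_mul {k : G} (hk : Γ.rho k = 0) (x : G) : pt Γ (x * k) = pt Γ x :=
  ((pt_eq Γ).2 (d_right Γ hk x)).symm

theorem exists_of_pt_eq {x y : G} (h : pt Γ x = pt Γ y) : ∃ k, Γ.rho k = 0 ∧ y = x * k :=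
  ⟨x⁻¹ * y, (pt_eq Γ).1 h, by group⟩

instance : IsIsometricSMul G (Sp Γ) where
  isometry_smul g := by
    refine Isometry.of_dist_eq fun x y => ?_
    obtain ⟨x, rfl⟩ := pt_surj Γ x
    obtain ⟨y, rfl⟩ := pt_surj Γ y
    show dist (g • pt Γ x) (g • pt Γ y) = dist (pt Γ x) (pt Γ y)
    rw [smul_pt, smul_pt, dist_pt, dist_pt, d_mul]

theorem pt_cont [IsTopologicalGroup G] : Continuous (pt Γ) := by
  refine continuous_iff_continuousAt.2 fun x => ?_
  refine Metric.tendsto_nhds.2 fun ε hε => ?_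
  have h1 : Continuous fun y : G => Γ.rho (x⁻¹ * y) :=
    Γ.rho_cont.comp (continuous_const.mul continuous_id)
  have h2 : ∀ᶠ y in 𝓝 x, Γ.rho (x⁻¹ * y) < ε := by
    refine h1.continuousAt.eventually_lt continuousAt_const ?_
    rw [inv_mul_cancel, Γ.rho_one]
    exact hε
  filter_upwards [h2] with y hy
  rw [dist_pt, d_comm]
  exact hy

/-- The facts of the action used by the smoothing. -/
theorem actFacts [IsTopologicalGroup G] : ActFacts G (Sp Γ) (pt Γ 1) where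
  cont := by
    have h : (fun h : G => h • pt Γ 1) = pt Γ := by
      funext h
      rw [smul_pt, mul_one]
    rw [h]
    exact pt_cont Γ
  trans := by
    intro x
    obtain ⟨g, rfl⟩ := pt_surj Γ x
    exact ⟨g, by rw [smul_pt, mul_one]⟩
  proper := by
    intro R
    have h : {h : G | dist (pt Γ 1) (h • pt Γ 1) ≤ R} = {h : G | Γ.rho h ≤ R} := by
      ext h
      rw [Set.mem_ofPred_eq, Set.mem_ofPred_eq, smul_pt, dist_pt, mul_one]
      unfold R1.d
      rw [inv_one, one_mul]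
    rw [h]
    exact Γ.proper R

/-! ### Radial maps -/

/-- Polar coordinates: `z` is the point `p * (k * dg r)`. -/
theorem exists_polar (p z : G) : ∃ k, Γ.rho k = 0 ∧
    pt Γ z = pt Γ (p * (k * Γ.dg (Γ.d p z))) := by
  obtain ⟨k, hk, h⟩ := Γ.polar (p⁻¹ * z)
  refine ⟨k, hk, ?_⟩
  rw [pt_eq, ← d_mul Γ p⁻¹, show p⁻¹ * (p * (k * Γ.dg (Γ.d p z))) = k * Γ.dg (Γ.d p z) by group]
  exact h

theorem d_polar (p k : G) (hk : Γ.rho k = 0) {r : ℝ} (hr : 0 ≤ r) :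
    Γ.d p (p * (k * Γ.dg r)) = r := by
  unfold R1.d
  rw [show p⁻¹ * (p * (k * Γ.dg r)) = k * Γ.dg r by group]
  have h1 := Γ.rho_mul k (Γ.dg r)
  have h2 := Γ.rho_mul k⁻¹ (k * Γ.dg r)
  rw [show k⁻¹ * (k * Γ.dg r) = Γ.dg r by group, Γ.rho_inv] at h2
  rw [Γ.rho_dg, abs_of_nonneg hr, hk] at h1 h2
  linarith

theorem d_line (p k : G) (s t : ℝ) : Γ.d (p * (k * Γ.dg s)) (p * (k * Γ.dg t)) = |s - t| := by
  rw [d_mul, d_mul]
  unfold R1.d
  rw [← dg_neg, ← Γ.dg_add, Γ.rho_dg, abs_sub_comm]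
  congr 1
  ring

/-- Contraction of the radial retractions. -/
theorem contr_sinh (p k k' : G) (hk : Γ.rho k = 0) (hk' : Γ.rho k' = 0) {j r r' : ℝ} (hj : 0 ≤ j)
    (h : j ≤ r) (h' : j ≤ r') :
    Real.sinh (Γ.d (p * (k * Γ.dg j)) (p * (k' * Γ.dg j))) ^ 2 * (Real.sinh r * Real.sinh r') ≤
      Real.sinh j ^ 2 * Real.sinh (Γ.d (p * (k * Γ.dg r)) (p * (k' * Γ.dg r'))) ^ 2 := by
  have h1 := Γ.rad (k⁻¹ * k') (rho_mul_zero Γ (rho_inv_zero Γ hk) hk') j r r' hj h h'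
  have h2 : ∀ s s' : ℝ, Γ.d (p * (k * Γ.dg s)) (p * (k' * Γ.dg s')) =
      Γ.rho (Γ.dg (-s) * (k⁻¹ * k') * Γ.dg s') := by
    intro s s'
    rw [d_mul, dg_neg]
    unfold R1.d
    congr 1
    group
  rw [h2, h2]
  exact h1

/-- Two rays with the same point at the distance `r` coincide up to the distance `r`. -/
theorem ray_eq {p p' k k' : G} (hp : pt Γ p = pt Γ p') (hk : Γ.rho k = 0) (hk' : Γ.rho k' = 0)
    {t r : ℝ} (ht : 0 ≤ t) (htr : t ≤ r)
    (h : pt Γ (p * (k * Γ.dg r)) = pt Γ (p' * (k' * Γ.dg r))) :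
    pt Γ (p * (k * Γ.dg t)) = pt Γ (p' * (k' * Γ.dg t)) := by
  obtain ⟨m, hm, rfl⟩ := exists_of_pt_eq Γ hp
  rw [mul_assoc, ← mul_assoc m] at h ⊢
  have hm' := rho_mul_zero Γ hm hk'
  rcases htr.eq_or_lt with rfl | htr'
  · exact h
  have hr : 0 < r := lt_of_le_of_lt ht htr'
  have h1 := contr_sinh Γ p k (m * k') hk hm' ht htr htr
  rw [(pt_eq Γ).1 h, Real.sinh_zero] at h1
  have h2 : 0 < Real.sinh r * Real.sinh r := by
    have := Real.sinh_pos_iff.2 hr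
    positivity
  have h3 : Real.sinh (Γ.d (p * (k * Γ.dg t)) (p * (m * k' * Γ.dg t))) ^ 2 ≤ 0 := by
    nlinarith
  have h4 : Real.sinh (Γ.d (p * (k * Γ.dg t)) (p * (m * k' * Γ.dg t))) = 0 :=
    pow_eq_zero_iff (two_ne_zero) |>.1 (le_antisymm h3 (sq_nonneg _))
  exact (pt_eq Γ).2 (Real.sinh_eq_zero.1 h4)

/-- The parameter cut to `[0, r]`. -/
noncomputable def cut (r t : ℝ) : ℝ := max 0 (min t r)

theorem cut_nonneg (r t : ℝ) : 0 ≤ cut r t := le_max_left _ _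

theorem cut_le {r : ℝ} (hr : 0 ≤ r) (t : ℝ) : cut r t ≤ r := max_le hr (min_le_right _ _)

/-- The direction of the polar coordinates. -/
noncomputable def kk (p z : G) : G := (exists_polar Γ p z).choose

theorem kk_rho (p z : G) : Γ.rho (kk Γ p z) = 0 := (exists_polar Γ p z).choose_spec.1

theorem kk_spec (p z : G) : pt Γ z = pt Γ (p * (kk Γ p z * Γ.dg (Γ.d p z))) :=
  (exists_polar Γ p z).choose_spec.2

/-- The radial retractions on the group. -/
noncomputable def radG (p : G) (t : ℝ) (z : G) : G :=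
  p * (kk Γ p z * Γ.dg (cut (Γ.d p z) t))

/-- The radial retractions. -/
noncomputable def Ps (p : Sp Γ) (t : ℝ) (z : Sp Γ) : Sp Γ :=
  pt Γ (radG Γ (pt_surj Γ p).choose t (pt_surj Γ z).choose)

theorem Ps_eq {p z k : G} (hk : Γ.rho k = 0) {r : ℝ} (hr : 0 ≤ r)
    (hz : pt Γ z = pt Γ (p * (k * Γ.dg r))) (t : ℝ) :
    Ps Γ (pt Γ p) t (pt Γ z) = pt Γ (p * (k * Γ.dg (cut r t))) := by
  have key : ∀ p' z' : G, pt Γ p' = pt Γ p → pt Γ z' = pt Γ z →
      pt Γ (radG Γ p' t z') = pt Γ (p * (k * Γ.dg (cut r t))) := by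
    intro p' z' e1 e2
    have e4 := kk_spec Γ p' z'
    have e5 : Γ.d p' z' = r := by
      rw [← dist_pt, e1, e2, hz, dist_pt, d_polar Γ p k hk hr]
    unfold radG
    rw [e5] at e4 ⊢
    refine ray_eq Γ e1 (kk_rho Γ p' z') hk (cut_nonneg _ _) (cut_le hr _) ?_
    rw [← e4, e2, hz]
  exact key _ _ (pt_surj Γ (pt Γ p)).choose_spec (pt_surj Γ (pt Γ z)).choose_spec

theorem exists_rep (p z : Sp Γ) : ∃ p' k, Γ.rho k = 0 ∧ pt Γ p' = p ∧
    pt Γ (p' * (k * Γ.dg (dist p z))) = z ∧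
    ∀ t, Ps Γ p t z = pt Γ (p' * (k * Γ.dg (cut (dist p z) t))) := by
  obtain ⟨p', rfl⟩ := pt_surj Γ p
  obtain ⟨z', rfl⟩ := pt_surj Γ z
  obtain ⟨k, hk, h⟩ := exists_polar Γ p' z'
  exact ⟨p', k, hk, rfl, h.symm, fun t => Ps_eq Γ hk (d_nonneg Γ _ _) h t⟩

theorem Ps_smul (g : G) (p : Sp Γ) (t : ℝ) (z : Sp Γ) :
    g • Ps Γ p t z = Ps Γ (g • p) t (g • z) := by
  obtain ⟨p', k, hk, hp, hz, h⟩ := exists_rep Γ p z
  have h2 : g • z = pt Γ ((g * p') * (k * Γ.dg (dist p z))) := by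
    rw [mul_assoc, ← smul_pt, hz]
  obtain ⟨z', hz'⟩ := pt_surj Γ (g • z)
  rw [h, ← hp, smul_pt, smul_pt, hp, ← hz', Ps_eq Γ hk dist_nonneg (hz'.trans h2)]
  rw [mul_assoc]

theorem Ps_low {p z : Sp Γ} {t : ℝ} (ht : t ≤ 0) : Ps Γ p t z = p := by
  obtain ⟨p', k, hk, hp, hz, h⟩ := exists_rep Γ p z
  have h1 : cut (dist p z) t = 0 := max_eq_left ((min_le_left _ _).trans ht)
  rw [h, h1, dg_zero, mul_one, pt_mul Γ hk, hp]

theorem Ps_high {p z : Sp Γ} {t : ℝ} (ht : dist p z ≤ t) : Ps Γ p t z = z := by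
  obtain ⟨p', k, hk, hp, hz, h⟩ := exists_rep Γ p z
  have h1 : cut (dist p z) t = dist p z := by
    unfold cut
    rw [min_eq_right ht, max_eq_right dist_nonneg]
  rw [h, h1, hz]

theorem Ps_step (p : Sp Γ) (s t : ℝ) (z : Sp Γ) :
    dist (Ps Γ p s z) (Ps Γ p t z) ≤ |s - t| := by
  obtain ⟨p', k, hk, hp, hz, h⟩ := exists_rep Γ p z
  rw [h, h, dist_pt, d_line]
  unfold cut
  rw [max_comm 0, max_comm 0]
  refine (abs_max_sub_max_le_abs _ _ _).trans ?_
  refine (abs_min_sub_min_le_max _ _ _ _).trans ?_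
  simp

theorem Ps_dist {p z : Sp Γ} {t : ℝ} : dist p (Ps Γ p t z) = cut (dist p z) t := by
  obtain ⟨p', k, hk, hp, hz, h⟩ := exists_rep Γ p z
  rw [h, ← hp, dist_pt, hp, d_polar Γ p' k hk (cut_nonneg _ _)]

/-- Reversal. -/
theorem Ps_rev (x y : Sp Γ) (t : ℝ) : Ps Γ y (dist x y - t) x = Ps Γ x t y := by
  obtain ⟨x', k, hk, hx, hy, h⟩ := exists_rep Γ x y
  obtain ⟨y', hy'⟩ := pt_surj Γ y
  set r := dist x y with hr
  have hr0 : 0 ≤ r := dist_nonneg
  obtain ⟨m, hm, e1⟩ := exists_of_pt_eq Γ (hy.trans hy'.symm)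
  have hk2 : Γ.rho (m⁻¹ * Γ.flip) = 0 := rho_mul_zero Γ (rho_inv_zero Γ hm) Γ.rho_flip
  have e2 : ∀ s, y' * (m⁻¹ * Γ.flip * Γ.dg s) = x' * (k * Γ.dg (r - s)) * Γ.flip := by
    intro s
    rw [e1, show x' * (k * Γ.dg r) * m * (m⁻¹ * Γ.flip * Γ.dg s) =
      x' * k * Γ.dg r * (Γ.flip * Γ.dg s) by group, Γ.flip_dg, sub_eq_add_neg, Γ.dg_add]
    group
  have e3 : pt Γ x' = pt Γ (y' * (m⁻¹ * Γ.flip * Γ.dg r)) := by
    rw [e2, pt_mul Γ Γ.rho_flip, sub_self, dg_zero, mul_one, pt_mul Γ hk]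
  rw [h, ← hy', ← hx, Ps_eq Γ hk2 hr0 e3, e2, pt_mul Γ Γ.rho_flip]
  congr 4
  unfold cut
  rcases le_total t 0 with h1 | h1
  · rw [min_eq_right (by linarith), max_eq_right hr0, min_eq_left (by linarith), max_eq_left h1]
    ring
  · rcases le_total t r with h2 | h2
    · rw [min_eq_left (by linarith), max_eq_right (by linarith), min_eq_left h2, max_eq_right h1]
      ring
    · rw [min_eq_left (by linarith), max_eq_left (by linarith), min_eq_right h2, max_eq_right hr0]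
      ring

end Pool.Agent.Helper14.BR
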