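import Pool.Agent.Helper14.BR.Pt

/-!
# Project BR: estimates for the radial maps
-/

set_option autoImplicit false

open Real Topology

namespace Pool.Agent.Helper14.BR

open Pool.Agent.Helper11.BR

variable {G : Type} [Group G] [TopologicalSpace G] (Γ : R1 G)

theorem exists_rep2 (p : G) (z : Sp Γ) : ∃ k, Γ.rho k = 0 ∧
    pt Γ (p * (k * Γ.dg (dist (pt Γ p) z))) = z ∧
    ∀ t, Ps Γ (pt Γ p) t z = pt Γ (p * (k * Γ.dg (cut (dist (pt Γ p) z) t))) := by
  obtain ⟨z', rfl⟩ := pt_surj Γ z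
  obtain ⟨k, hk, h⟩ := exists_polar Γ p z'
  exact ⟨k, hk, h.symm, fun t => Ps_eq Γ hk (d_nonneg Γ _ _) h t⟩

theorem cut_eq {r t : ℝ} (h0 : 0 ≤ t) (h : t ≤ r) : cut r t = t := by
  unfold cut
  rw [min_eq_left h, max_eq_right h0]

theorem Ps_comp (p : Sp Γ) (t u : ℝ) (z : Sp Γ) :
    Ps Γ p t (Ps Γ p u z) = Ps Γ p (min t u) z := by
  obtain ⟨p', rfl⟩ := pt_surj Γ p
  obtain ⟨k, hk, hz, h⟩ := exists_rep2 Γ p' z
  rw [h, h, Ps_eq Γ hk (cut_nonneg _ _) rfl]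
  congr 4
  have hr : 0 ≤ dist (pt Γ p') z := dist_nonneg
  generalize dist (pt Γ p') z = r at hr
  unfold cut
  rcases le_total u 0 with h1 | h1
  · rw [min_eq_left (h1.trans hr), max_eq_left h1, max_eq_left (min_le_right _ _),
      max_eq_left (((min_le_left _ _).trans (min_le_right _ _)).trans h1)]
  · rw [max_eq_right (le_min h1 hr), ← min_assoc]

theorem Ps_sinh (p z z' : Sp Γ) {t : ℝ} (h0 : 0 ≤ t) (h : t ≤ dist p z) (h' : t ≤ dist p z') :
    Real.sinh (dist (Ps Γ p t z) (Ps Γ p t z')) ^ 2 *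
      (Real.sinh (dist p z) * Real.sinh (dist p z')) ≤
      Real.sinh t ^ 2 * Real.sinh (dist z z') ^ 2 := by
  obtain ⟨p', rfl⟩ := pt_surj Γ p
  obtain ⟨k, hk, hz, e⟩ := exists_rep2 Γ p' z
  obtain ⟨k', hk', hz', e'⟩ := exists_rep2 Γ p' z'
  have h1 := contr_sinh Γ p' k k' hk hk' h0 h h'
  rw [← dist_pt, ← dist_pt, hz, hz'] at h1
  rw [e, e', cut_eq h0 h, cut_eq h0 h']
  exact h1

theorem sinh_lt_exp {t r : ℝ} (h : t ≤ r) :
    Real.sinh t ≤ Real.exp (t - r) * Real.sinh r := by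
  rw [Real.sinh_eq, Real.sinh_eq]
  have h1 : Real.exp (t - r) * ((Real.exp r - Real.exp (-r)) / 2) =
      (Real.exp t - Real.exp (t - 2 * r)) / 2 := by
    rw [mul_div_assoc', mul_sub, ← Real.exp_add, ← Real.exp_add]
    congr 3 <;> ring_nf
  rw [h1]
  have h2 : Real.exp (t - 2 * r) ≤ Real.exp (-t) := Real.exp_le_exp.2 (by linarith)
  linarith

theorem sinh_le_mul_exp {x : ℝ} (hx : 0 ≤ x) : Real.sinh x ≤ x * Real.exp x := by
  rw [Real.sinh_eq]
  have h1 : Real.exp (-x) = Real.exp x * Real.exp (-(2 * x)) := by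
    rw [← Real.exp_add]
    congr 1
    ring
  have h2 := Real.add_one_le_exp (-(2 * x))
  have h3 := Real.exp_pos x
  rw [h1]
  nlinarith

theorem le_sinh {x : ℝ} (hx : 0 ≤ x) : x ≤ Real.sinh x := Real.self_le_sinh_iff.2 hx

theorem Ps_low_zero {p z z' : Sp Γ} {t : ℝ} (ht : t ≤ 0) :
    dist (Ps Γ p t z) (Ps Γ p t z') = 0 := by
  rw [Ps_low Γ ht, Ps_low Γ ht, dist_self]

/-- The retractions are `1`-Lipschitz outside of the ball. -/
theorem Ps_lip1 (p z z' : Sp Γ) {t : ℝ} (h : t ≤ dist p z) (h' : t ≤ dist p z') :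
    dist (Ps Γ p t z) (Ps Γ p t z') ≤ dist z z' := by
  rcases le_or_gt t 0 with h0 | h0
  · rw [Ps_low_zero Γ h0]
    exact dist_nonneg
  have h1 := Ps_sinh Γ p z z' h0.le h h'
  have h2 : Real.sinh t ≤ Real.sinh (dist p z) := Real.sinh_le_sinh.2 h
  have h3 : Real.sinh t ≤ Real.sinh (dist p z') := Real.sinh_le_sinh.2 h'
  have h4 : 0 < Real.sinh t := Real.sinh_pos_iff.2 h0
  have h5 : Real.sinh t ^ 2 ≤ Real.sinh (dist p z) * Real.sinh (dist p z') := by
    rw [sq]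
    exact mul_le_mul h2 h3 h4.le (h4.le.trans h2)
  have h6 : 0 < Real.sinh (dist p z) * Real.sinh (dist p z') := by
    have := pow_pos h4 2
    linarith
  have h7 : Real.sinh (dist (Ps Γ p t z) (Ps Γ p t z')) ^ 2 ≤ Real.sinh (dist z z') ^ 2 := by
    refine le_of_mul_le_mul_right (h1.trans ?_) h6
    rw [mul_comm]
    exact mul_le_mul_of_nonneg_left h5 (sq_nonneg _)
  have h8 : 0 ≤ Real.sinh (dist z z') := Real.sinh_nonneg_iff.2 dist_nonneg
  exact Real.sinh_le_sinh.1 (le_of_sq_le_sq' h7 h8)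
  where
  le_of_sq_le_sq' {a b : ℝ} (h : a ^ 2 ≤ b ^ 2) (hb : 0 ≤ b) : a ≤ b := by
    exact (abs_le_of_sq_le_sq' h hb).2

theorem Ps_lip (p : Sp Γ) (t : ℝ) (z z' : Sp Γ) :
    dist (Ps Γ p t z) (Ps Γ p t z') ≤ 2 * dist z z' := by
  have key : ∀ z z' : Sp Γ, dist p z < t → t ≤ dist p z' →
      dist (Ps Γ p t z) (Ps Γ p t z') ≤ 2 * dist z z' := by
    intro z z' h h'
    rw [Ps_high Γ h.le]
    have h1 := Ps_step Γ p (dist p z') t z'
    rw [Ps_high Γ le_rfl, abs_of_nonneg (by linarith)] at h1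
    have h2 := dist_triangle z z' (Ps Γ p t z')
    have h3 := dist_triangle p z z'
    linarith
  rcases le_or_gt t (dist p z) with h | h
  · rcases le_or_gt t (dist p z') with h' | h'
    · have h1 := Ps_lip1 Γ p z z' h h'
      have h2 : 0 ≤ dist z z' := dist_nonneg
      linarith
    · rw [dist_comm, dist_comm z z']
      exact key z' z h' h
  · rcases le_or_gt t (dist p z') with h' | h'
    · exact key z z' h h'
    · rw [Ps_high Γ h.le, Ps_high Γ h'.le]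
      have h2 : 0 ≤ dist z z' := dist_nonneg
      linarith

theorem Ps_contr (R : ℝ) (p : Sp Γ) (t : ℝ) (z z' : Sp Γ) (hR : dist z z' ≤ R) :
    dist (Ps Γ p t z) (Ps Γ p t z') ≤
      2 * Real.exp (2 * |R|) * Real.exp (t - dist p z) * dist z z' := by
  have hD : 0 ≤ dist z z' := dist_nonneg
  have hR0 : 0 ≤ R := hD.trans hR
  rw [abs_of_nonneg hR0]
  have h3 := dist_triangle p z' z
  rw [dist_comm z' z] at h3
  rcases le_or_gt t 0 with h0 | h0
  · rw [Ps_low_zero Γ h0]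
    positivity
  have far : -R ≤ t - dist p z → dist (Ps Γ p t z) (Ps Γ p t z') ≤
      2 * Real.exp (2 * R) * Real.exp (t - dist p z) * dist z z' := by
    intro h
    refine (Ps_lip Γ p t z z').trans (mul_le_mul_of_nonneg_right ?_ hD)
    have h1 : (1 : ℝ) ≤ Real.exp (2 * R) * Real.exp (t - dist p z) := by
      rw [← Real.exp_add]
      exact Real.one_le_exp (by linarith)
    linarith
  rcases le_or_gt t (dist p z) with h | h
  swap
  · exact far (by linarith)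
  rcases le_or_gt t (dist p z') with h' | h'
  swap
  · exact far (by linarith)
  have h1 := Ps_sinh Γ p z z' h0.le h h'
  have e1 := sinh_lt_exp h
  have e2 := sinh_lt_exp h'
  have h4 : 0 < Real.sinh t := Real.sinh_pos_iff.2 h0
  have s1 : 0 < Real.sinh (dist p z) := Real.sinh_pos_iff.2 (h0.trans_le h)
  have s2 : 0 < Real.sinh (dist p z') := Real.sinh_pos_iff.2 (h0.trans_le h')
  have e3 : Real.exp (t - dist p z') ≤ Real.exp (t - dist p z + R) :=
    Real.exp_le_exp.2 (by linarith)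
  have h5 : Real.sinh t ^ 2 ≤ (Real.exp (t - dist p z) * Real.exp (t - dist p z + R)) *
      (Real.sinh (dist p z) * Real.sinh (dist p z')) := by
    calc Real.sinh t ^ 2 = Real.sinh t * Real.sinh t := sq _
      _ ≤ (Real.exp (t - dist p z) * Real.sinh (dist p z)) *
          (Real.exp (t - dist p z + R) * Real.sinh (dist p z')) := by
          refine mul_le_mul e1 (e2.trans (mul_le_mul_of_nonneg_right e3 s2.le)) h4.le ?_
          positivity
      _ = _ := by ring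
  have h6 : Real.sinh (dist (Ps Γ p t z) (Ps Γ p t z')) ^ 2 ≤
      (Real.exp (t - dist p z) * Real.exp (R / 2) * Real.sinh (dist z z')) ^ 2 := by
    have h7 : (Real.exp (t - dist p z) * Real.exp (R / 2) * Real.sinh (dist z z')) ^ 2 =
        (Real.exp (t - dist p z) * Real.exp (t - dist p z + R)) *
          Real.sinh (dist z z') ^ 2 := by
      have h8 : Real.exp (t - dist p z + R) =
          Real.exp (t - dist p z) * (Real.exp (R / 2) * Real.exp (R / 2)) := by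
        rw [← Real.exp_add, ← Real.exp_add]
        congr 1
        ring
      rw [h8]
      ring
    rw [h7]
    refine le_of_mul_le_mul_right (h1.trans ?_) (mul_pos s1 s2)
    calc Real.sinh t ^ 2 * Real.sinh (dist z z') ^ 2 ≤
        ((Real.exp (t - dist p z) * Real.exp (t - dist p z + R)) *
          (Real.sinh (dist p z) * Real.sinh (dist p z'))) * Real.sinh (dist z z') ^ 2 :=
          mul_le_mul_of_nonneg_right h5 (sq_nonneg _)
      _ = _ := by ring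
  have h8 : 0 ≤ Real.sinh (dist z z') := Real.sinh_nonneg_iff.2 dist_nonneg
  have h9 : Real.sinh (dist (Ps Γ p t z) (Ps Γ p t z')) ≤
      Real.exp (t - dist p z) * Real.exp (R / 2) * Real.sinh (dist z z') :=
    (abs_le_of_sq_le_sq' h6 (by positivity)).2
  have h10 := le_sinh (dist_nonneg (x := Ps Γ p t z) (y := Ps Γ p t z'))
  have h11 := sinh_le_mul_exp hD
  have h12 : Real.exp (dist z z') ≤ Real.exp R := Real.exp_le_exp.2 hR
  have h13 : Real.sinh (dist z z') ≤ dist z z' * Real.exp R :=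
    h11.trans (mul_le_mul_of_nonneg_left h12 hD)
  have h14 : Real.exp (R / 2) * Real.exp R ≤ 2 * Real.exp (2 * R) := by
    rw [← Real.exp_add]
    have : Real.exp (R / 2 + R) ≤ Real.exp (2 * R) := Real.exp_le_exp.2 (by linarith)
    have := Real.exp_pos (2 * R)
    linarith
  calc dist (Ps Γ p t z) (Ps Γ p t z') ≤ _ := h10.trans h9
    _ ≤ Real.exp (t - dist p z) * Real.exp (R / 2) * (dist z z' * Real.exp R) :=
        mul_le_mul_of_nonneg_left h13 (by positivity)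
    _ = (Real.exp (R / 2) * Real.exp R) * (Real.exp (t - dist p z) * dist z z') := by ring
    _ ≤ (2 * Real.exp (2 * R)) * (Real.exp (t - dist p z) * dist z z') :=
        mul_le_mul_of_nonneg_right h14 (by positivity)
    _ = _ := by ring

/-- Lipschitz in the centre. -/
theorem Ps_lip_centre (p p' : Sp Γ) (t : ℝ) (z : Sp Γ) :
    dist (Ps Γ p t z) (Ps Γ p' t z) ≤ 3 * dist p p' := by
  rw [← Ps_rev Γ p z t, ← Ps_rev Γ p' z t]
  have h1 := Ps_step Γ z (dist p z - t) (dist p' z - t) p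
  have h2 := Ps_lip Γ z (dist p' z - t) p p'
  have h3 := dist_triangle (Ps Γ z (dist p z - t) p) (Ps Γ z (dist p' z - t) p)
    (Ps Γ z (dist p' z - t) p')
  have h4 : |dist p z - t - (dist p' z - t)| ≤ dist p p' := by
    rw [sub_sub_sub_cancel_right]
    exact abs_dist_sub_le p p' z
  linarith

theorem Ps_dist_le (p p' : Sp Γ) (t t' : ℝ) (z z' : Sp Γ) :
    dist (Ps Γ p t z) (Ps Γ p' t' z') ≤ 3 * dist p p' + |t - t'| + 2 * dist z z' := by
  have h1 := Ps_lip_centre Γ p p' t z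
  have h2 := Ps_step Γ p' t t' z
  have h3 := Ps_lip Γ p' t' z z'
  have h4 := dist_triangle (Ps Γ p t z) (Ps Γ p' t z) (Ps Γ p' t' z')
  have h5 := dist_triangle (Ps Γ p' t z) (Ps Γ p' t' z) (Ps Γ p' t' z')
  linarith

theorem Ps_cont : Continuous fun q : Sp Γ × ℝ × Sp Γ => Ps Γ q.1 q.2.1 q.2.2 := by
  have h : LipschitzWith 6 fun q : Sp Γ × ℝ × Sp Γ => Ps Γ q.1 q.2.1 q.2.2 := by
    refine LipschitzWith.of_dist_le_mul fun q q' => ?_
    refine (Ps_dist_le Γ _ _ _ _ _ _).trans ?_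
    have h1 : dist q.1 q'.1 ≤ dist q q' := le_max_left _ _
    have h2 : dist q.2 q'.2 ≤ dist q q' := le_max_right _ _
    have h3 : dist q.2.1 q'.2.1 ≤ dist q.2 q'.2 := le_max_left _ _
    have h4 : dist q.2.2 q'.2.2 ≤ dist q.2 q'.2 := le_max_right _ _
    rw [Real.dist_eq] at h3
    push_cast
    linarith
  exact h.continuous

/-! ### Thin triangles -/

/-- The Gromov product. -/
noncomputable def gpr (x y z : Sp Γ) : ℝ := (dist x y + dist x z - dist y z) / 2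

theorem gpr_nonneg (x y z : Sp Γ) : 0 ≤ gpr Γ x y z := by
  unfold gpr
  have := dist_triangle y x z
  rw [dist_comm y x] at this
  linarith

theorem gpr_le (x y z : Sp Γ) : gpr Γ x y z ≤ dist x y := by
  unfold gpr
  have := dist_triangle x y z
  linarith

theorem gpr_le' (x y z : Sp Γ) : gpr Γ x y z ≤ dist x z := by
  unfold gpr
  have := dist_triangle x z y
  rw [dist_comm z y] at this
  linarith

/-- Triangles have centres. -/
def Centre : Prop :=
  ∃ K₀ : ℝ, ∀ (s t u n₁ n₂ n₃ : G), Γ.d (Γ.ln n₁ 0) s ≤ 1 →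
    Γ.d (Γ.ln n₁ (Γ.d s t)) t ≤ 1 → Γ.d (Γ.ln n₂ 0) t ≤ 1 → Γ.d (Γ.ln n₂ (Γ.d t u)) u ≤ 1 →
    Γ.d (Γ.ln n₃ 0) u ≤ 1 → Γ.d (Γ.ln n₃ (Γ.d u s)) s ≤ 1 →
    ∃ (o : G) (a b c : ℝ), 0 ≤ a ∧ a ≤ Γ.d s t ∧ 0 ≤ b ∧ b ≤ Γ.d t u ∧ 0 ≤ c ∧ c ≤ Γ.d u s ∧
      Γ.d o (Γ.ln n₁ a) ≤ K₀ ∧ Γ.d o (Γ.ln n₂ b) ≤ K₀ ∧ Γ.d o (Γ.ln n₃ c) ≤ K₀

theorem exists_line (s t : G) : ∃ n : G, Γ.d (Γ.ln n 0) s = 0 ∧ Γ.d (Γ.ln n (Γ.d s t)) t = 0 ∧
    ∀ a, 0 ≤ a → a ≤ Γ.d s t → Ps Γ (pt Γ s) a (pt Γ t) = pt Γ (Γ.ln n a) := by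
  obtain ⟨k, hk, hz, h⟩ := exists_rep2 Γ s (pt Γ t)
  rw [dist_pt] at hz h
  refine ⟨s * k, ?_, ?_, ?_⟩
  · unfold R1.ln
    rw [dg_zero, mul_one, d_comm, d_right Γ hk]
  · unfold R1.ln
    rw [mul_assoc, ← pt_eq, hz]
  · intro a h0 h1
    rw [h, cut_eq h0 h1]
    unfold R1.ln
    rw [mul_assoc]

theorem thin_at (hc : Centre Γ) : ∃ δ : ℝ, 0 ≤ δ ∧ ∀ x y z : Sp Γ,
    dist (Ps Γ x (gpr Γ x y z) y) (Ps Γ x (gpr Γ x y z) z) ≤ δ := by
  obtain ⟨K₀, hK⟩ := hc
  refine ⟨8 * |K₀|, by positivity, ?_⟩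
  intro x y z
  obtain ⟨s, rfl⟩ := pt_surj Γ x
  obtain ⟨t, rfl⟩ := pt_surj Γ y
  obtain ⟨u, rfl⟩ := pt_surj Γ z
  obtain ⟨n₁, a1, a2, a3⟩ := exists_line Γ s t
  obtain ⟨n₂, b1, b2, b3⟩ := exists_line Γ t u
  obtain ⟨n₃, c1, c2, c3⟩ := exists_line Γ u s
  obtain ⟨o, a, b, c, ha0, ha, hb0, hb, hc0, hc, e1, e2, e3⟩ := hK s t u n₁ n₂ n₃
    (by rw [a1]; exact zero_le_one) (by rw [a2]; exact zero_le_one) (by rw [b1]; exact zero_le_one)
    (by rw [b2]; exact zero_le_one) (by rw [c1]; exact zero_le_one) (by rw [c2]; exact zero_le_one)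
  have hK0 := le_abs_self K₀
  rw [← dist_pt] at e1 e2 e3
  rw [← a3 a ha0 ha] at e1
  rw [← b3 b hb0 hb] at e2
  rw [← c3 c hc0 hc] at e3
  rw [← dist_pt] at ha hb hc
  set x := pt Γ s
  set y := pt Γ t
  set z := pt Γ u
  have r3 : Ps Γ z c x = Ps Γ x (dist x z - c) z := by
    rw [← Ps_rev Γ x z (dist x z - c)]
    congr 1
    ring
  rw [r3] at e3
  set a' := dist x z - c with ha'
  have ha'0 : 0 ≤ a' := by
    rw [ha', dist_comm]
    linarith
  have ha'1 : a' ≤ dist x z := by linarith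
  have p1 : dist x (Ps Γ x a y) = a := by rw [Ps_dist, cut_eq ha0 ha]
  have p2 : dist x (Ps Γ x a' z) = a' := by rw [Ps_dist, cut_eq ha'0 ha'1]
  have p3 : dist y (Ps Γ y b z) = b := by rw [Ps_dist, cut_eq hb0 hb]
  have q1 : dist y (Ps Γ x a y) = dist x y - a := by
    have h1 := Ps_rev Γ x y a
    rw [← h1, Ps_dist, dist_comm y x, cut_eq (by linarith) (by linarith)]
  have q2 : dist z (Ps Γ x a' z) = dist x z - a' := by
    have h1 := Ps_rev Γ x z a'
    rw [← h1, Ps_dist, dist_comm z x, cut_eq (by linarith) (by linarith)]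
  have q3 : dist z (Ps Γ y b z) = dist y z - b := by
    have h1 := Ps_rev Γ y z b
    rw [← h1, Ps_dist, dist_comm z y, cut_eq (by linarith) (by linarith)]
  set A := Ps Γ x a y
  set A' := Ps Γ x a' z
  set B := Ps Γ y b z
  have t1 : dist A A' ≤ 2 * |K₀| := by
    have := dist_triangle A (pt Γ o) A'
    rw [dist_comm A (pt Γ o)] at this
    linarith
  have t2 : dist A B ≤ 2 * |K₀| := by
    have := dist_triangle A (pt Γ o) B
    rw [dist_comm A (pt Γ o)] at this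
    linarith
  have t3 : dist A' B ≤ 2 * |K₀| := by
    have := dist_triangle A' (pt Γ o) B
    rw [dist_comm A' (pt Γ o)] at this
    linarith
  have u1 : |a - a'| ≤ 2 * |K₀| := by
    rw [← p1, ← p2, dist_comm x A, dist_comm x A']
    exact (abs_dist_sub_le A A' x).trans t1
  have u2 : |(dist x y - a) - b| ≤ 2 * |K₀| := by
    rw [← q1, ← p3, dist_comm y A, dist_comm y B]
    exact (abs_dist_sub_le A B y).trans t2
  have u3 : |(dist x z - a') - (dist y z - b)| ≤ 2 * |K₀| := by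
    rw [← q2, ← q3, dist_comm z A', dist_comm z B]
    exact (abs_dist_sub_le A' B z).trans t3
  have w1 := Ps_step Γ x (gpr Γ x y z) a y
  have w2 := Ps_step Γ x (gpr Γ x y z) a' z
  have w3 := dist_triangle (Ps Γ x (gpr Γ x y z) y) A (Ps Γ x (gpr Γ x y z) z)
  have w4 := dist_triangle A A' (Ps Γ x (gpr Γ x y z) z)
  rw [dist_comm A' _] at w4
  have v1 : |gpr Γ x y z - a| ≤ 3 * |K₀| := by
    unfold gpr
    rw [abs_le] at u1 u2 u3 ⊢
    constructor <;> linarith [u1.1, u1.2, u2.1, u2.2, u3.1, u3.2]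
  have v2 : |gpr Γ x y z - a'| ≤ 3 * |K₀| := by
    unfold gpr
    rw [abs_le] at u1 u2 u3 ⊢
    constructor <;> linarith [u1.1, u1.2, u2.1, u2.2, u3.1, u3.2]
  have w1' : dist (Ps Γ x (gpr Γ x y z) y) A ≤ 3 * |K₀| := w1.trans v1
  have w2' : dist (Ps Γ x (gpr Γ x y z) z) A' ≤ 3 * |K₀| := w2.trans v2
  linarith

/-- Thin triangles. -/
theorem thin (hc : Centre Γ) : ∃ T : ℝ, 0 ≤ T ∧ ∀ (x y z : Sp Γ) (t : ℝ), t ≤ gpr Γ x y z →
    dist (Ps Γ x t y) (Ps Γ x t z) ≤ T * Real.exp (t - gpr Γ x y z) := by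
  obtain ⟨δ, hδ, h⟩ := thin_at Γ hc
  have hs : 0 ≤ Real.sinh δ := Real.sinh_nonneg_iff.2 hδ
  refine ⟨Real.sinh δ, hs, ?_⟩
  intro x y z t ht
  rcases le_or_gt t 0 with h0 | h0
  · rw [Ps_low_zero Γ h0]
    positivity
  set u := gpr Γ x y z with hu
  have hu0 : 0 < u := h0.trans_le ht
  have e1 : Ps Γ x t y = Ps Γ x t (Ps Γ x u y) := by rw [Ps_comp, min_eq_left ht]
  have e2 : Ps Γ x t z = Ps Γ x t (Ps Γ x u z) := by rw [Ps_comp, min_eq_left ht]
  have d1 : dist x (Ps Γ x u y) = u := by rw [Ps_dist, cut_eq hu0.le (gpr_le Γ x y z)]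
  have d2 : dist x (Ps Γ x u z) = u := by rw [Ps_dist, cut_eq hu0.le (gpr_le' Γ x y z)]
  have h1 := Ps_sinh Γ x (Ps Γ x u y) (Ps Γ x u z) h0.le (by rw [d1]; exact ht)
    (by rw [d2]; exact ht)
  rw [d1, d2, ← e1, ← e2] at h1
  have h2 := sinh_lt_exp ht
  have s1 : 0 < Real.sinh u := Real.sinh_pos_iff.2 hu0
  have s2 : 0 < Real.sinh t := Real.sinh_pos_iff.2 h0
  have s3 : Real.sinh (dist (Ps Γ x u y) (Ps Γ x u z)) ≤ Real.sinh δ :=
    Real.sinh_le_sinh.2 (h x y z)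
  have s4 : 0 ≤ Real.sinh (dist (Ps Γ x u y) (Ps Γ x u z)) := Real.sinh_nonneg_iff.2 dist_nonneg
  have h3 : Real.sinh (dist (Ps Γ x t y) (Ps Γ x t z)) ^ 2 ≤
      (Real.sinh δ * Real.exp (t - u)) ^ 2 := by
    refine le_of_mul_le_mul_right (h1.trans ?_) (mul_pos s1 s1)
    calc Real.sinh t ^ 2 * Real.sinh (dist (Ps Γ x u y) (Ps Γ x u z)) ^ 2 ≤
        (Real.exp (t - u) * Real.sinh u) ^ 2 * Real.sinh δ ^ 2 :=
          mul_le_mul (pow_le_pow_left₀ s2.le h2 2) (pow_le_pow_left₀ s4 s3 2) (sq_nonneg _)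
            (sq_nonneg _)
      _ = _ := by ring
  have h4 := (abs_le_of_sq_le_sq' h3 (by positivity)).2
  exact (le_sinh dist_nonneg).trans h4

end Pool.Agent.Helper14.BR
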