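import Pool.Agent.Helper14.BR.RadS
import Pool.Agent.Helper17.BR.Ex

/-!
# Project BR: the straightening, in the terms of the smoothing operator
-/

set_option autoImplicit false

open Real Topology

namespace Pool.Agent.Helper14.SJ

open Pool.Agent.Helper11.BC (dl)
open Pool.Agent.Helper14.BC

section

variable {X : Type}

variable {G : Type} [Group G] [MetricSpace X] [MulAction G X] (R : Rad G X) (o : X)

theorem Kp_smul (p : X) (a : ℝ) (c : List X → ℝ) (l : List X) :
    Kp R p (fun l' => a * c l') l = a * Kp R p c l := by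
  unfold Kp KK
  rw [← tsum_mul_left]
  refine tsum_congr fun j => ?_
  exact pr_smul _ _ a c l

theorem base_smul (a : ℝ) (c : List X → ℝ) (x y : X) :
    base R (fun l' => a * c l') x y = a * base R c x y := by
  unfold base
  have h : ∀ t : ℝ, a * c [R.Ps x t y, R.Ps x (t + 1) y] - a * c [R.Ps x (t + 1) y, R.Ps x t y] =
      a * (c [R.Ps x t y, R.Ps x (t + 1) y] - c [R.Ps x (t + 1) y, R.Ps x t y]) := fun t => by ring
  simp only [h]
  rw [intervalIntegral.integral_const_mul]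
  ring

theorem st_smul (a : ℝ) (c : List X → ℝ) (L : List X) :
    st R o (fun l' => a * c l') L = a * st R o c L := by
  obtain ⟨n, hn⟩ : ∃ n, L.length = n := ⟨_, rfl⟩
  induction n using Nat.strong_induction_on generalizing L c with
  | _ n ih =>
    match L, hn with
    | [], _ => rfl
    | [x], _ => rfl
    | [x, y], _ => exact base_smul R a c x y
    | x :: y :: z :: L, hn =>
      have h3 : 3 ≤ (x :: y :: z :: L).length := by simp
      rw [st_big R o _ h3, st_big R o c h3, ← smul_eq_mul, ← dl_smul]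
      refine dl_congr fun i hi => ?_
      have h4 := length_face hi
      have h5 : Kp R ((x :: y :: z :: L).headD o) (fun l' => a * c l') =
          fun l' => a * Kp R ((x :: y :: z :: L).headD o) c l' :=
        funext fun l => Kp_smul R _ a c l
      rw [h5, smul_eq_mul]
      exact ih _ (by omega) _ _ rfl

theorem Nrm_smul {c : List X → ℝ} (h : Nrm c) (a : ℝ) : Nrm fun l => a * c l := fun l₁ l₂ x => by
  show a * c _ = 0
  rw [h l₁ l₂ x, mul_zero]

theorem C1_smul {c : List X → ℝ} (h : C1 c) (a : ℝ) : C1 fun l => a * c l := fun k =>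
  continuous_const.mul (h k)

theorem st_lin {c d : List X → ℝ} (hc : C1 c) (hd : C1 d) (hn : Nrm c) (hn' : Nrm d) (a b : ℝ)
    (L : List X) :
    st R o (fun l => a * c l + b * d l) L = a * st R o c L + b * st R o d L := by
  have h1 : (fun l => a * c l + b * d l) = fun l => a * c l - (-b) * d l := by
    funext l
    ring
  rw [h1, st_sub R o (C1_smul hc a) (C1_smul hd (-b)) (Nrm_smul hn a) (Nrm_smul hn' (-b)),
    st_smul, st_smul]
  ring

end

end Pool.Agent.Helper14.SJ

namespace Pool.Agent.Helper14.BR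

open Pool.Agent.Helper14
open Pool.Agent.Helper11.BR (R1)

section conv

variable {Y P : Type} [TopologicalSpace Y] [TopologicalSpace P]

theorem cn_of_lcj {b : P → List Y → ℝ} (h : Helper17.BR.LCj b) : SJ.Cn b := by
  intro k
  have h1 := h (P × (Fin k → Y)) (fun q => q.1) continuous_fst (List.ofFn fun i q => q.2 i)
    fun w hw => by
      obtain ⟨i, rfl⟩ := (List.mem_ofFn' _ _).1 hw
      exact (continuous_apply i).comp continuous_snd
  refine h1.congr fun q => ?_
  rw [List.map_ofFn]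
  rfl

theorem lcj_of_cn {b : P → List Y → ℝ} (h : SJ.Cn b) : Helper17.BR.LCj b := by
  intro Q _ r hr ws hws
  have h1 : Continuous fun q : Q => (fun i : Fin ws.length => ws.get i q) :=
    continuous_pi fun i => hws _ (List.get_mem _ _)
  have h2 := (h ws.length).comp (hr.prodMk h1)
  refine h2.congr fun q => ?_
  simp only [Function.comp_apply]
  congr 1
  apply List.ext_getElem
  · simp
  · intro i h3 h4
    simp

theorem c1_of_lc {b : List Y → ℝ} (h : Helper17.BR.LC b) : SJ.C1 b :=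
  (cn_of_lcj (P := Unit) (h.lcj)).c1 ()

theorem lc_of_c1 {b : List Y → ℝ} (h : SJ.C1 b) : Helper17.BR.LC b :=
  (lcj_of_cn (P := Unit) h.cn).lc ()

theorem nrm_of {b : List Y → ℝ} (h : Helper17.BR.Nrm b) : SJ.Nrm b := fun l₁ l₂ x => h l₁ x l₂

theorem nrm_to {b : List Y → ℝ} (h : SJ.Nrm b) : Helper17.BR.Nrm b := fun l₁ x l₂ => h l₁ l₂ x

end conv

variable {G : Type} [Group G] [TopologicalSpace G] (Γ : R1 G)

/-- The straightening on the space of a group of rank one. -/
noncomputable def stS (c : List (Sp Γ) → ℝ) (L : List (Sp Γ)) : ℝ :=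
  SJ.st (radS Γ) (pt Γ 1) c L

theorem stS_nil (c : List (Sp Γ) → ℝ) : stS Γ c [] = c [] := rfl

theorem stS_one (c : List (Sp Γ) → ℝ) (x : Sp Γ) : stS Γ c [x] = c [x] := rfl

theorem stS_lin {c d : List (Sp Γ) → ℝ} (hc : Helper17.BR.LC c) (hd : Helper17.BR.LC d)
    (hn : Helper17.BR.Nrm c) (hn' : Helper17.BR.Nrm d) (a b : ℝ) (L : List (Sp Γ)) :
    stS Γ (fun l => a * c l + b * d l) L = a * stS Γ c L + b * stS Γ d L :=
  SJ.st_lin _ _ (c1_of_lc hc) (c1_of_lc hd) (nrm_of hn) (nrm_of hn') a b L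

theorem stS_ch {c : List (Sp Γ) → ℝ} (hc : Helper17.BR.LC c) (hn : Helper17.BR.Nrm c)
    (L : List (Sp Γ)) : Helper17.BC.dl (stS Γ c) L = stS Γ (Helper17.BC.dl c) L := by
  have h1 := SJ.st_dl (radS Γ) (pt Γ 1) (c1_of_lc hc) (nrm_of hn) L
  have h2 : (Helper11.BC.dl c) = Helper17.BC.dl c := funext fun l => Helper17.BR.dl_eq c l
  rw [h2, Helper17.BR.dl_eq] at h1
  exact h1.symm

theorem stS_nat (g : G) (c : List (Sp Γ) → ℝ) (L : List (Sp Γ)) :
    stS Γ c (L.map (g • ·)) = stS Γ (fun l => c (l.map (g • ·))) L :=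
  SJ.st_map (radS Γ) (pt Γ 1) (fun g x y => dist_smul g x y) g c L

theorem stS_cont {P : Type} [TopologicalSpace P] {c : P → List (Sp Γ) → ℝ}
    (hc : Helper17.BR.LCj c) (hn : ∀ p, Helper17.BR.Nrm (c p)) :
    Helper17.BR.LCj fun p => stS Γ (c p) :=
  lcj_of_cn (SJ.Cn_st (radS Γ) (pt Γ 1) (cn_of_lcj hc) fun p => nrm_of (hn p))

theorem stS_congr {c d : List (Sp Γ) → ℝ} {L : List (Sp Γ)}
    (h : ∀ l : List (Sp Γ), l.length = L.length → c l = d l) : stS Γ c L = stS Γ d L :=
  SJ.st_congr _ _ h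

theorem stS_bound (n : ℕ) : ∃ B D : ℝ, 0 ≤ B ∧ 0 ≤ D ∧ ∀ (c : List (Sp Γ) → ℝ) (M : ℝ), 0 ≤ M →
    Helper17.BR.Nrm c → Helper17.BR.LC c →
    (∀ (l₁ l₂ : List (Sp Γ)) (a b : Sp Γ), l₁.length + l₂.length + 1 = n + 3 →
      Helper17.BR.Loc D (l₁ ++ a :: l₂) → Helper17.BR.Loc D (l₁ ++ b :: l₂) →
      |c (l₁ ++ a :: l₂) - c (l₁ ++ b :: l₂)| ≤ M * dist a b) →
    ∀ L : List (Sp Γ), L.length = n + 3 → |stS Γ c L| ≤ B * M := by
  obtain ⟨B, D, hB, hD, h⟩ := SJ.st_bound1 (radS Γ) (pt Γ 1) n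
  exact ⟨B, D, hB, hD, fun c M hM hn hc h1 L hL => h c M hM (nrm_of hn) (c1_of_lc hc)
    (fun l₁ l₂ a b hl h2 h3 => h1 l₁ l₂ a b hl h2 h3) L hL⟩

end Pool.Agent.Helper14.BR
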